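import Mathlib

set_option autoImplicit false

namespace Pool.Agent.Results.MP_efe325_an.AbsKernel

open MeasureTheory Finset
open scoped ENNReal symmDiff InnerProductSpace

/-- Vertices of the dyadic tree: the root is `[]`, the children of `v` are `b :: v`. An edge is named
by its child end point, so `[]` also names the edge `(o*, o)`. -/
abbrev T := List Bool

instance : MeasurableSpace T := ⊤

/-- The edges of the geodesic `[o*, z]`. -/
def P (z : T) : Finset T := z.tails.toFinset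

/-- `d(x ∧ y)`, the number of edges common to `[o*, x]` and `[o*, y]`. -/
def dm (x y : T) : ℤ := (P x ∩ P y).card

/-- The kernel `k_{(a,b)}(x,y)`. -/
def kk (p q : T × T) : ℤ := dm p.1 q.1 + dm p.2 q.2 - dm p.1 q.2 - dm p.2 q.1

variable {𝕜 : Type} [RCLike 𝕜]

/-- The gradient of the function with value `c` at `o*` and values `F` on `T`. -/
def grad (c : 𝕜) (F : T → 𝕜) : T → 𝕜
  | [] => F [] - c
  | b :: v => F (b :: v) - F v

variable (𝕜) in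
/-- Condition (a'). -/
def CondA (μ : Measure T) : Prop :=
  ∃ C : ℝ≥0∞, C < ∞ ∧ ∀ (c : 𝕜) (F : T → 𝕜),
    ∫⁻ p, ‖F p.1 - F p.2‖ₑ ^ 2 ∂(μ.prod μ) ≤ C * ∑' α, ‖grad c F α‖ₑ ^ 2

variable (𝕜) in
/-- `H` is a reproducing kernel Hilbert space on `T × T` with kernel `|k|`. -/
def IsAbsK (H : Type) [NormedAddCommGroup H] [InnerProductSpace 𝕜 H] [CompleteSpace H]
    [RKHS 𝕜 H (T × T) 𝕜] : Prop := ∀ p q, RKHS.kernel H q p (1 : 𝕜) = ((|kk p q| : ℤ) : 𝕜)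

variable (𝕜) in
/-- Condition (b). -/
def CondB (H : Type) [NormedAddCommGroup H] [InnerProductSpace 𝕜 H] [RKHS 𝕜 H (T × T) 𝕜]
    (μ : Measure T) : Prop :=
  ∃ C : ℝ≥0∞, C < ∞ ∧ ∀ G : H, ∫⁻ p, ‖G p‖ₑ ^ 2 ∂(μ.prod μ) ≤ C * ‖G‖ₑ ^ 2

instance : MeasurableSingletonClass T := ⟨fun _ => trivial⟩

theorem mem_P {γ z : T} : γ ∈ P z ↔ γ <:+ z := by simp [P]

theorem P_cons (b : Bool) (v : T) : P (b :: v) = insert (b :: v) (P v) := by simp [P]

theorem P_nil : P [] = {[]} := by simp [P]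

theorem notMem_P (b : Bool) (v : T) : b :: v ∉ P v := fun h => by
  have := (mem_P.1 h).length_le
  simp at this

/-- edges of `[x,y]` -/
def Sg (p : T × T) : Finset T := P p.1 ∆ P p.2

theorem nil_Sg (p : T × T) : [] ∉ Sg p := by simp [Sg, mem_symmDiff, mem_P]

theorem dm_eq (x y : T) (U : Finset T) (h : P x ⊆ U) :
    dm x y = ∑ γ ∈ U, (if γ ∈ P x then 1 else 0) * (if γ ∈ P y then 1 else 0) := by
  simp only [ite_mul, one_mul, zero_mul, ← ite_and, ← mem_inter]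
  rw [sum_ite_mem, inter_eq_right.2 (inter_subset_left.trans h)]
  simp [dm]

theorem kk_abs (p q : T × T) : |kk p q| = (Sg p ∩ Sg q).card := by
  obtain ⟨a, b⟩ := p
  obtain ⟨x, y⟩ := q
  have e : ∀ s : ℤ, (∀ γ ∈ Sg (a, b) ∩ Sg (x, y), ((if γ ∈ P a then 1 else 0) - (if γ ∈ P b then 1 else 0)) *
      ((if γ ∈ P x then 1 else 0) - (if γ ∈ P y then 1 else 0)) = s) →
      kk (a, b) (x, y) = s * (Sg (a, b) ∩ Sg (x, y)).card := by
    intro s hs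
    have h1 : Sg (a, b) ∩ Sg (x, y) ⊆ P a ∪ P b := inter_subset_left.trans symmDiff_subset_union
    rw [kk, dm_eq a x _ (subset_union_left (s₂ := P b)), dm_eq a y _ (subset_union_left (s₂ := P b)),
      dm_eq b x _ (subset_union_right (s₁ := P a)), dm_eq b y _ (subset_union_right (s₁ := P a)),
      ← sum_add_distrib, ← sum_sub_distrib, ← sum_sub_distrib, ← sum_subset h1, mul_comm,
      ← nsmul_eq_mul, ← sum_const]
    · exact sum_congr rfl fun γ hγ => by rw [← hs γ hγ]; ring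
    · intro γ _ h
      simp only [Sg, mem_inter, mem_symmDiff] at h
      split_ifs <;> first | rfl | (exfalso; tauto)
  by_cases h : ∀ γ ∈ Sg (a, b) ∩ Sg (x, y), (γ ∈ P a ↔ γ ∈ P x)
  · rw [e 1, one_mul, Nat.abs_cast]
    intro γ hγ
    have := h γ hγ
    simp only [Sg, mem_inter, mem_symmDiff] at hγ
    split_ifs <;> first | rfl | (exfalso; tauto)
  · rw [e (-1), neg_one_mul, abs_neg, Nat.abs_cast]
    push Not at h
    obtain ⟨β, hβ, h⟩ := h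
    intro γ hγ
    have k : ∀ z, β ∈ P z → γ ∈ P z → (∀ u, β ∈ P u → γ ∈ P u) ∨ ∀ u, γ ∈ P u → β ∈ P u := by
      intro z h1 h2
      rcases List.suffix_or_suffix_of_suffix (mem_P.1 h1) (mem_P.1 h2) with h3 | h3
      · exact Or.inr fun u hu => mem_P.2 (h3.trans (mem_P.1 hu))
      · exact Or.inl fun u hu => mem_P.2 (h3.trans (mem_P.1 hu))
    have k2 : (β ∈ P a ∧ γ ∈ P a) ∨ (β ∈ P b ∧ γ ∈ P b) ∨ (β ∈ P x ∧ γ ∈ P x) ∨ (β ∈ P y ∧ γ ∈ P y) →
        ((β ∈ P a → γ ∈ P a) ∧ (β ∈ P b → γ ∈ P b) ∧ (β ∈ P x → γ ∈ P x) ∧ (β ∈ P y → γ ∈ P y)) ∨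
        ((γ ∈ P a → β ∈ P a) ∧ (γ ∈ P b → β ∈ P b) ∧ (γ ∈ P x → β ∈ P x) ∧ (γ ∈ P y → β ∈ P y)) := by
      rintro (⟨h1, h2⟩ | ⟨h1, h2⟩ | ⟨h1, h2⟩ | ⟨h1, h2⟩) <;>
        exact (k _ h1 h2).imp (fun h => ⟨h _, h _, h _, h _⟩) fun h => ⟨h _, h _, h _, h _⟩
    simp only [Sg, mem_inter, mem_symmDiff] at hγ hβ
    split_ifs <;> first | rfl | (exfalso; tauto)

theorem Sg_edge (b : Bool) (v : T) : Sg (v, b :: v) = {b :: v} := by
  ext γ
  have := notMem_P b v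
  simp only [Sg, P_cons, mem_symmDiff, mem_insert, mem_singleton]
  constructor
  · tauto
  · rintro rfl; tauto

theorem tele (c : 𝕜) (F : T → 𝕜) (x : T) : ∑ α ∈ P x, grad c F α = F x - c := by
  induction x with
  | nil => simp [P_nil, grad]
  | cons b v ih => rw [P_cons, sum_insert (notMem_P b v), ih, grad]; ring

theorem grad_sum (ψ : T → 𝕜) : grad 0 (fun x => ∑ α ∈ P x, ψ α) = ψ := by
  funext α
  cases α with
  | nil => simp [P_nil, grad]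
  | cons b v => rw [grad, P_cons, sum_insert (notMem_P b v)]; ring

theorem lint (μ : Measure T) (f : T × T → ℝ≥0∞) :
    ∫⁻ p, f p ∂(μ.prod μ) = ∑' p, f p * (μ {p.1} * μ {p.2}) := by
  haveI : SFinite μ := by rw [← Measure.sum_smul_dirac μ]; infer_instance
  rw [lintegral_countable']
  exact tsum_congr fun p => by rw [← Measure.prod_prod, Set.singleton_prod_singleton]

section RK
variable {H : Type} [NormedAddCommGroup H] [InnerProductSpace 𝕜 H] [CompleteSpace H]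
  [RKHS 𝕜 H (T × T) 𝕜]

variable (𝕜 H) in
noncomputable def K (p : T × T) : H := RKHS.kerFun H p (1 : 𝕜)

theorem K_inner (p : T × T) (G : H) : ⟪K 𝕜 H p, G⟫_𝕜 = G p := by simp [K]

theorem KK (h : IsAbsK 𝕜 H) (p q : T × T) : ⟪K 𝕜 H q, K 𝕜 H p⟫_𝕜 = ((Sg p ∩ Sg q).card : 𝕜) := by
  rw [K_inner, K, RKHS.kerFun_apply, h, kk_abs, Int.cast_natCast]

variable (𝕜 H) in
noncomputable def v (α : T) : H := K 𝕜 H (α.tail, α)

theorem Kv (h : IsAbsK 𝕜 H) (p : T × T) {α : T} (hα : α ≠ []) :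
    ⟪K 𝕜 H p, v 𝕜 H α⟫_𝕜 = if α ∈ Sg p then 1 else 0 := by
  obtain ⟨b, w, rfl⟩ := List.exists_cons_of_ne_nil hα
  rw [v, KK h, List.tail_cons, Sg_edge]
  split_ifs with h1
  · rw [singleton_inter_of_mem h1]; simp
  · rw [singleton_inter_of_notMem h1]; simp

theorem vv (h : IsAbsK 𝕜 H) {α β : T} (hα : α ≠ []) (hβ : β ≠ []) :
    ⟪v 𝕜 H β, v 𝕜 H α⟫_𝕜 = if α = β then 1 else 0 := by
  obtain ⟨b, w, rfl⟩ := List.exists_cons_of_ne_nil hβ
  rw [v, Kv h _ hα, List.tail_cons, Sg_edge]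
  simp

theorem on (h : IsAbsK 𝕜 H) : Orthonormal 𝕜 fun α : {α : T // α ≠ []} => v 𝕜 H α.1 := by
  classical
  rw [orthonormal_iff_ite]
  intro i j
  rw [vv h j.2 i.2]
  simp only [Subtype.ext_iff, eq_comm]

theorem nsum (h : IsAbsK 𝕜 H) (s : Finset T) (hs : [] ∉ s) (c : T → 𝕜) (G : H)
    (hG : ∀ α ∈ s, ⟪v 𝕜 H α, G⟫_𝕜 = c α) :
    ‖G - ∑ α ∈ s, c α • v 𝕜 H α‖ ^ 2 = ‖G‖ ^ 2 - ∑ α ∈ s, ‖c α‖ ^ 2 := by
  have h1 : ⟪∑ α ∈ s, c α • v 𝕜 H α, G⟫_𝕜 = ((∑ α ∈ s, ‖c α‖ ^ 2 : ℝ) : 𝕜) := by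
    rw [sum_inner]
    push_cast
    exact sum_congr rfl fun α hα => by rw [inner_smul_left, hG α hα, RCLike.conj_mul]
  have h2 : ∀ β ∈ s, ⟪v 𝕜 H β, ∑ α ∈ s, c α • v 𝕜 H α⟫_𝕜 = c β := fun β hβ => by
    rw [inner_sum, sum_eq_single β]
    · rw [inner_smul_right, vv h (ne_of_mem_of_not_mem hβ hs) (ne_of_mem_of_not_mem hβ hs)]; simp
    · intro α hα hne
      rw [inner_smul_right, vv h (ne_of_mem_of_not_mem hα hs) (ne_of_mem_of_not_mem hβ hs)]; simp [hne]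
    · exact fun h => absurd hβ h
  have h3 : ‖∑ α ∈ s, c α • v 𝕜 H α‖ ^ 2 = ∑ α ∈ s, ‖c α‖ ^ 2 := by
    rw [← inner_self_eq_norm_sq (𝕜 := 𝕜)]
    nth_rewrite 1 [sum_inner]
    rw [map_sum]
    refine sum_congr rfl fun α hα => ?_
    rw [inner_smul_left, h2 α hα, RCLike.conj_mul, ← RCLike.ofReal_pow, RCLike.ofReal_re]
  rw [norm_sub_rev, @norm_sub_sq 𝕜, h1, h3, RCLike.ofReal_re]
  ring

theorem K_eq (h : IsAbsK 𝕜 H) (p : T × T) : K 𝕜 H p = ∑ α ∈ Sg p, v 𝕜 H α := by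
  have h1 := nsum h (Sg p) (nil_Sg p) (fun _ => 1) (K 𝕜 H p) fun α hα => by
    rw [← inner_conj_symm, Kv h p (ne_of_mem_of_not_mem hα (nil_Sg p)), if_pos hα, map_one]
  rw [← inner_self_eq_norm_sq (𝕜 := 𝕜) (K 𝕜 H p), KK h] at h1
  simpa [sub_eq_zero] using h1

theorem BA (h : IsAbsK 𝕜 H) {μ : Measure T} (hB : CondB 𝕜 H μ) : CondA 𝕜 μ := by
  obtain ⟨C, hC, hB⟩ := hB
  refine ⟨C, hC, fun c F => ?_⟩
  rw [lint, ENNReal.tsum_eq_iSup_sum]
  refine iSup_le fun S => ?_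
  have hs : [] ∉ S.biUnion Sg := by simp [nil_Sg]
  set G : H := ∑ α ∈ S.biUnion Sg, ((‖grad c F α‖ : ℝ) : 𝕜) • v 𝕜 H α with hG
  have h1 : ∀ p ∈ S, ‖F p.1 - F p.2‖ ≤ ‖G p‖ := by
    intro p hp
    have e1 : G p = ((∑ α ∈ Sg p, ‖grad c F α‖ : ℝ) : 𝕜) := by
      rw [← K_inner, hG, inner_sum, ← sum_subset (subset_biUnion_of_mem Sg hp)]
      · push_cast
        exact sum_congr rfl fun α hα => by
          rw [inner_smul_right, Kv h p (ne_of_mem_of_not_mem hα (nil_Sg p)), if_pos hα, mul_one]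
      · intro α hα hn
        rw [inner_smul_right, Kv h p (ne_of_mem_of_not_mem hα hs), if_neg hn, mul_zero]
    rw [e1, RCLike.norm_ofReal, show F p.1 - F p.2 = (F p.1 - c) - (F p.2 - c) by ring, ← tele, ← tele,
      ← sum_sdiff_sub_sum_sdiff, Sg, symmDiff_def, sup_eq_union, sum_union disjoint_sdiff_sdiff]
    exact ((norm_sub_le _ _).trans (add_le_add (norm_sum_le _ _) (norm_sum_le _ _))).trans (le_abs_self _)
  have h2 : ‖G‖ ^ 2 = ∑ α ∈ S.biUnion Sg, ‖grad c F α‖ ^ 2 := by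
    have := nsum h _ hs (fun α => ((‖grad c F α‖ : ℝ) : 𝕜)) G fun β hβ => by
      rw [hG, inner_sum, sum_eq_single β]
      · rw [inner_smul_right, vv h (ne_of_mem_of_not_mem hβ hs) (ne_of_mem_of_not_mem hβ hs)]; simp
      · intro α hα hne
        rw [inner_smul_right, vv h (ne_of_mem_of_not_mem hα hs) (ne_of_mem_of_not_mem hβ hs)]; simp [hne]
      · exact fun h => absurd hβ h
    rw [← hG, sub_self, norm_zero] at this
    simp only [RCLike.norm_ofReal, abs_norm] at this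
    linarith
  calc _ ≤ ∑ p ∈ S, ‖G p‖ₑ ^ 2 * (μ {p.1} * μ {p.2}) := sum_le_sum fun p hp => by
        gcongr
        exact enorm_le_iff_norm_le.2 (h1 p hp)
    _ ≤ C * ‖G‖ₑ ^ 2 := (ENNReal.sum_le_tsum _).trans ((lint μ _).symm.trans_le (hB G))
    _ ≤ _ := by
        gcongr
        refine le_trans (le_of_eq ?_) (ENNReal.sum_le_tsum (S.biUnion Sg))
        simp only [← ofReal_norm, ← ENNReal.ofReal_pow (norm_nonneg _)]
        rw [h2, ENNReal.ofReal_sum_of_nonneg fun _ _ => by positivity]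

theorem bessel (h : IsAbsK 𝕜 H) (G : H) : ∑' α, ‖G (α.tail, α)‖ₑ ^ 2 ≤ ‖G‖ₑ ^ 2 := by
  rw [ENNReal.tsum_eq_iSup_sum]
  refine iSup_le fun s => ?_
  have h0 : G ([], []) = 0 := by rw [← K_inner, K_eq h]; simp [Sg]
  have h1 := nsum h (s.erase []) (notMem_erase _ _) (fun α => G (α.tail, α)) G fun α _ => K_inner _ _
  rw [← sum_erase s (a := []) (by simp [h0])]
  simp only [← ofReal_norm, ← ENNReal.ofReal_pow (norm_nonneg _)]
  rw [← ENNReal.ofReal_sum_of_nonneg fun _ _ => by positivity]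
  exact ENNReal.ofReal_le_ofReal (by nlinarith [sq_nonneg ‖G - ∑ α ∈ s.erase [], G (α.tail, α) • v 𝕜 H α‖])

end RK

theorem fin_mass {μ : Measure T} (hA : CondA 𝕜 μ) {m m' : T} (hm : μ {m} ≠ 0) (hm' : μ {m'} ≠ 0)
    (hne : m ≠ m') : ∑' x, μ {x} ≠ ∞ := by
  obtain ⟨C, hC, hA⟩ := hA
  obtain ⟨β, hβ⟩ : (Sg (m, m')).Nonempty := by
    rw [Sg, Finset.symmDiff_nonempty]
    intro h
    have h1 : m ∈ P m' := h ▸ mem_P.2 List.suffix_rfl
    have h2 : m' ∈ P m := h ▸ mem_P.2 List.suffix_rfl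
    exact hne ((mem_P.1 h1).eq_of_length_le (mem_P.1 h2).length_le)
  have h1 := hA 0 fun x => ∑ α ∈ P x, if α = β then 1 else 0
  rw [grad_sum, tsum_eq_single β (fun α h => by simp [h]), lint, ENNReal.tsum_prod'] at h1
  simp only [sum_ite_eq', if_true, enorm_one, one_pow, mul_one] at h1
  have h2 : ∀ u, μ {u} ≠ 0 → ∑' y, ‖(if β ∈ P u then (1 : 𝕜) else 0) - if β ∈ P y then 1 else 0‖ₑ ^ 2 * μ {y}
      ≠ ∞ := by
    intro u hu h
    have h3 := (ENNReal.le_tsum u).trans h1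
    simp only [mul_left_comm _ (μ {u}), ENNReal.tsum_mul_left, h, ENNReal.mul_top hu] at h3
    exact hC.ne (top_le_iff.1 h3)
  refine ne_top_of_le_ne_top (ENNReal.add_ne_top.2 ⟨h2 m hm, h2 m' hm'⟩) ?_
  rw [← ENNReal.tsum_add]
  refine ENNReal.tsum_le_tsum fun y => ?_
  simp only [Sg, mem_symmDiff] at hβ
  split_ifs <;> first | (exfalso; tauto) | simp

theorem AB {H : Type} [NormedAddCommGroup H] [InnerProductSpace 𝕜 H] [CompleteSpace H]
    [RKHS 𝕜 H (T × T) 𝕜] (h : IsAbsK 𝕜 H) {μ : Measure T} (hA : CondA 𝕜 μ) : CondB 𝕜 H μ := by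
  by_cases h0 : ∀ x, μ {x} = 0
  · exact ⟨0, by simp, fun G => by simp [lint, h0]⟩
  push Not at h0
  obtain ⟨m, hm⟩ := h0
  by_cases h1 : ∀ x ≠ m, μ {x} = 0
  · refine ⟨0, by simp, fun G => ?_⟩
    rw [lint, zero_mul, nonpos_iff_eq_zero, ENNReal.tsum_eq_zero]
    rintro ⟨x, y⟩
    by_cases hx : x = m
    · by_cases hy : y = m
      · rw [hx, hy, ← K_inner, K_eq h]; simp [Sg]
      · simp [h1 y hy]
    · simp [h1 x hx]
  push Not at h1
  obtain ⟨m', hne, hm'⟩ := h1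
  have hW := fin_mass hA hm hm' hne.symm
  obtain ⟨C, hC, hA⟩ := hA
  refine ⟨4 * (∑' x, μ {x}) * (C / μ {m}), ENNReal.mul_lt_top (ENNReal.mul_lt_top (by simp) hW.lt_top)
    (ENNReal.div_lt_top hC.ne hm), fun G => ?_⟩
  let φ : T → ℝ := fun α => ‖G (α.tail, α)‖
  let a : T → ℝ≥0∞ := fun x => ∑ α ∈ Sg (m, x), ‖G (α.tail, α)‖ₑ
  have h2 := hA 0 fun x => ∑ α ∈ P x, if α ∈ P m then ((φ α : ℝ) : 𝕜) else -((φ α : ℝ) : 𝕜)
  rw [grad_sum, lint, ENNReal.tsum_prod'] at h2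
  have h3 := (ENNReal.le_tsum m).trans h2
  have e1 : ∀ α, ‖if α ∈ P m then ((φ α : ℝ) : 𝕜) else -((φ α : ℝ) : 𝕜)‖ₑ = ‖G (α.tail, α)‖ₑ := by
    intro α
    rw [enorm_eq_iff_norm_eq]
    split_ifs <;> simp [φ]
  have e2 : ∀ x, ‖(∑ α ∈ P m, if α ∈ P m then ((φ α : ℝ) : 𝕜) else -((φ α : ℝ) : 𝕜)) -
      ∑ α ∈ P x, if α ∈ P m then ((φ α : ℝ) : 𝕜) else -((φ α : ℝ) : 𝕜)‖ₑ = a x := by
    intro x
    rw [← sum_sdiff_sub_sum_sdiff, sum_congr rfl fun α hα => if_pos (mem_sdiff.1 hα).1,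
      sum_congr rfl fun α hα => if_neg (mem_sdiff.1 hα).2, sum_neg_distrib, sub_neg_eq_add,
      ← sum_union disjoint_sdiff_sdiff, ← RCLike.ofReal_sum, ← ofReal_norm, RCLike.norm_ofReal,
      abs_of_nonneg (sum_nonneg fun _ _ => norm_nonneg _),
      ENNReal.ofReal_sum_of_nonneg fun _ _ => norm_nonneg _]
    simp only [φ, ofReal_norm]
    rfl
  simp only [e1, e2, mul_left_comm _ (μ {m}), ENNReal.tsum_mul_left] at h3
  have h4 : ∑' y, a y ^ 2 * μ {y} ≤ C / μ {m} * ‖G‖ₑ ^ 2 := by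
    rw [ENNReal.div_eq_inv_mul, mul_assoc, ← ENNReal.div_eq_inv_mul,
      ENNReal.le_div_iff_mul_le (Or.inl hm) (Or.inl (ne_top_of_le_ne_top hW (ENNReal.le_tsum m))),
      mul_comm]
    exact h3.trans (mul_le_mul_right (bessel h G) _)
  have h5 : ∀ x y, ‖G (x, y)‖ₑ ^ 2 ≤ 2 * a x ^ 2 + 2 * a y ^ 2 := by
    intro x y
    have h6 : ‖G (x, y)‖ₑ ≤ a x + a y := by
      rw [← K_inner, K_eq h, sum_inner]
      refine (enorm_sum_le _ _).trans ?_
      simp only [v, K_inner]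
      refine (sum_le_sum_of_subset (t := Sg (m, x) ∪ Sg (m, y)) ?_).trans ?_
      · intro γ
        simp only [Sg, mem_union, mem_symmDiff]
        tauto
      · rw [← sum_union_inter]; exact le_self_add
    refine (pow_le_pow_left' h6 2).trans ?_
    rcases le_total (a x) (a y) with h7 | h7 <;> obtain ⟨d, hd⟩ := exists_add_of_le h7 <;> rw [hd]
    · exact (le_self_add (b := d ^ 2)).trans_eq (by ring)
    · exact (le_self_add (b := d ^ 2)).trans_eq (by ring)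
  rw [lint, ENNReal.tsum_prod']
  calc _ ≤ ∑' x, ∑' y, (2 * (a x ^ 2 * μ {x}) * μ {y} + 2 * μ {x} * (a y ^ 2 * μ {y})) :=
        ENNReal.tsum_le_tsum fun x => ENNReal.tsum_le_tsum fun y =>
          (mul_le_mul_left (h5 x y) _).trans_eq (by ring)
    _ = 4 * (∑' x, μ {x}) * ∑' y, a y ^ 2 * μ {y} := by
        simp only [ENNReal.tsum_add, ENNReal.tsum_mul_left, ENNReal.tsum_mul_right]
        ring
    _ ≤ _ := by rw [mul_assoc _ (C / _)]; gcongr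

theorem ex : ∃ (H : Type) (_ : NormedAddCommGroup H) (_ : InnerProductSpace 𝕜 H) (_ : CompleteSpace H)
    (_ : RKHS 𝕜 H (T × T) 𝕜), IsAbsK 𝕜 H := by
  let u : T × T → lp (fun _ : {α : T // α ≠ []} => 𝕜) 2 := fun p =>
    ∑ α ∈ (Sg p).subtype (· ≠ []), lp.single 2 α (1 : 𝕜)
  have hu : ∀ p φ, ⟪u p, φ⟫_𝕜 = ∑ α ∈ (Sg p).subtype (· ≠ []), φ α := fun p φ => by
    simp [u, sum_inner, lp.inner_single_left]
  letI R : RKHS 𝕜 (lp (fun _ : {α : T // α ≠ []} => 𝕜) 2) (T × T) 𝕜 :=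
    ⟨ContinuousLinearMap.pi fun p => innerSL 𝕜 (u p), fun φ ψ h => lp.ext (funext fun α => by
      obtain ⟨b, w, e⟩ := List.exists_cons_of_ne_nil α.2
      have h1 : ⟪u (w, b :: w), φ⟫_𝕜 = ⟪u (w, b :: w), ψ⟫_𝕜 := congrFun h (w, b :: w)
      have h2 : (Sg (w, b :: w)).subtype (· ≠ []) = {α} := by
        ext γ
        rw [mem_subtype, Sg_edge, ← e, mem_singleton, mem_singleton, Subtype.ext_iff]
      simpa [hu, h2] using h1)⟩
  refine ⟨_, inferInstance, inferInstance, inferInstance, R, fun p q => ?_⟩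
  have h1 : RKHS.kerFun (lp (fun _ : {α : T // α ≠ []} => 𝕜) 2) p (1 : 𝕜) = u p :=
    ext_inner_right 𝕜 fun φ => by
      rw [RKHS.kerFun_inner]
      simp only [RCLike.inner_apply, map_one, mul_one]
      rfl
  rw [← RKHS.kerFun_apply, h1, kk_abs, Int.cast_natCast]
  refine (hu q (u p)).trans ?_
  have h2 : ∀ α : {α : T // α ≠ []}, u p α = if α.1 ∈ Sg p then 1 else 0 := fun α => by
    simp only [u, lp.coeFn_sum, Finset.sum_apply, lp.single_apply, Pi.single_apply, sum_ite_eq,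
      mem_subtype]
  simp only [h2]
  rw [sum_subtype_of_mem (fun α => if α ∈ Sg p then (1 : 𝕜) else 0)
    fun α hα => ne_of_mem_of_not_mem hα (nil_Sg q), sum_ite_mem, inter_comm]
  simp

theorem result (𝕜 : Type) [RCLike 𝕜] :
    (∃ (H : Type) (_ : NormedAddCommGroup H) (_ : InnerProductSpace 𝕜 H) (_ : CompleteSpace H)
      (_ : RKHS 𝕜 H (T × T) 𝕜), IsAbsK 𝕜 H) ∧
    ∀ (H : Type) [NormedAddCommGroup H] [InnerProductSpace 𝕜 H] [CompleteSpace H]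
      [RKHS 𝕜 H (T × T) 𝕜], IsAbsK 𝕜 H → ∀ μ : Measure T, CondA 𝕜 μ ↔ CondB 𝕜 H μ :=
  ⟨ex, fun _ _ _ _ _ h _ => ⟨AB h, BA h⟩⟩

end Pool.Agent.Results.MP_efe325_an.AbsKernel
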